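import Mathlib

/-!
# Du Bois-Reymond lemma: integrated form of a distributional ODE
-/

set_option autoImplicit false

open MeasureTheory Set Filter Topology
open scoped ContDiff

namespace Pool.Agent.MP909527.DBR

lemma prim_hasDeriv {φ : ℝ → ℝ} (hφ : Continuous φ) (a x : ℝ) :
    HasDerivAt (fun x => ∫ s in a..x, φ s) (φ x) x :=
  intervalIntegral.integral_hasDerivAt_right (hφ.intervalIntegrable _ _)
    hφ.stronglyMeasurable.stronglyMeasurableAtFilter hφ.continuousAt

lemma prim_contDiff {φ : ℝ → ℝ} (hφ : ContDiff ℝ ∞ φ) (a : ℝ) :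
    ContDiff ℝ ∞ (fun x => ∫ s in a..x, φ s) := by
  rw [contDiff_infty_iff_deriv]
  refine ⟨fun x => (prim_hasDeriv hφ.continuous a x).differentiableAt, ?_⟩
  have : deriv (fun x => ∫ s in a..x, φ s) = φ := by
    funext x; exact (prim_hasDeriv hφ.continuous a x).deriv
  rw [this]
  exact hφ

/-- existence of a normalised bump function in `(a,b)` -/
lemma exists_bump {a b : ℝ} (hab : a < b) : ∃ η : ℝ → ℝ, ContDiff ℝ ∞ η ∧
    HasCompactSupport η ∧ tsupport η ⊆ Ioo a b ∧ ∫ r, η r = 1 := by
  set c : ContDiffBump ((a + b) / 2) := ⟨(b - a) / 8, (b - a) / 4, by linarith, by linarith⟩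
  refine ⟨c.normed volume, c.contDiff_normed, c.hasCompactSupport_normed, ?_, c.integral_normed⟩
  rw [c.tsupport_normed_eq]
  intro x hx
  rw [Metric.mem_closedBall, Real.dist_eq] at hx
  have h := abs_le.1 hx
  have e : c.rOut = (b - a) / 4 := rfl
  rw [e] at h
  constructor <;> linarith [h.1, h.2]

theorem dBR {U V : ℝ → ℝ} (hU : Continuous U) (hV : Continuous V) {a b : ℝ} (hab : a < b)
    (h : ∀ χ : ℝ → ℝ, ContDiff ℝ ∞ χ → (∀ r, r ∉ Ioo a b → χ r = 0) →
      -∫ r, U r * deriv χ r = ∫ r, V r * χ r) :
    ∀ s ∈ Ioo a b, ∀ t ∈ Ioo a b, U t - U s = ∫ r in s..t, V r := by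
  intro s hs t ht
  obtain ⟨η, hη1, hη2, hη3, hη4⟩ := exists_bump hab
  set P : ℝ → ℝ := fun r => ∫ q in s..r, V q with hP
  have hPd : ∀ r, HasDerivAt P (V r) r := fun r => prim_hasDeriv hV s r
  have hPc : Continuous P := continuous_iff_continuousAt.2 fun r => (hPd r).continuousAt
  set G : ℝ → ℝ := fun r => U r - P r with hG
  have hGc : Continuous G := hU.sub hPc
  set c : ℝ := ∫ r, G r * η r with hc
  have hzero : ∀ g : ℝ → ℝ, HasCompactSupport g → tsupport g ⊆ Ioo a b → ∀ r, r ∉ Ioo a b → g r = 0 :=
    fun g _ hg2 r hr => image_eq_zero_of_notMem_tsupport fun h' => hr (hg2 h')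
  have hcsIoo : ∀ g : ℝ → ℝ, (∀ r, r ∉ Ioo a b → g r = 0) → HasCompactSupport g := by
    intro g hg
    refine HasCompactSupport.of_support_subset_isCompact (isCompact_Icc (a := a) (b := b)) ?_
    intro r hr
    by_contra h'
    exact hr (hg r fun h'' => h' (Ioo_subset_Icc_self h''))
  -- `∫ G h = 0` for `h` with mean zero
  have key : ∀ k : ℝ → ℝ, ContDiff ℝ ∞ k → HasCompactSupport k → tsupport k ⊆ Ioo a b →
      ∫ r, k r = 0 → ∫ r, G r * k r = 0 := by
    intro k hk1 hk2 hk3 hk4
    have hk0 := hzero k hk2 hk3
    set χ : ℝ → ℝ := fun r => ∫ q in a..r, k q with hχ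
    have hχd : ∀ r, HasDerivAt χ (k r) r := fun r => prim_hasDeriv hk1.continuous a r
    have hχc : ContDiff ℝ ∞ χ := prim_contDiff hk1 a
    have hχ0 : ∀ r, r ∉ Ioo a b → χ r = 0 := by
      intro r hr
      rcases le_or_gt r a with hra | hra
      · simp only [hχ]
        rw [intervalIntegral.integral_congr (g := fun _ => (0 : ℝ))]
        · simp
        · intro q hq
          rw [Set.uIcc_of_ge hra] at hq
          exact hk0 q fun h' => absurd h'.1 (not_lt.2 hq.2)
      · have hrb : b ≤ r := by
          by_contra h'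
          exact hr ⟨hra, not_le.1 h'⟩
        simp only [hχ]
        rw [intervalIntegral.integral_of_le hra.le,
          setIntegral_eq_integral_of_forall_compl_eq_zero, hk4]
        intro q hq
        refine hk0 q fun h' => hq ⟨h'.1, h'.2.le.trans hrb⟩
    have h1 := h χ hχc hχ0
    have hdχ : deriv χ = k := by funext r; exact (hχd r).deriv
    rw [hdχ] at h1
    have hχcs := hcsIoo χ hχ0
    have h2 : ∫ r, P r * k r = -∫ r, V r * χ r := by
      refine integral_mul_deriv_eq_deriv_mul_of_integrable (fun r _ => hPd r) (fun r _ => hχd r) ?_ ?_ ?_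
      · exact (hPc.mul hk1.continuous).integrable_of_hasCompactSupport hk2.mul_left
      · exact (hV.mul hχc.continuous).integrable_of_hasCompactSupport hχcs.mul_left
      · exact (hPc.mul hχc.continuous).integrable_of_hasCompactSupport hχcs.mul_left
    have i1 : Integrable (fun r => U r * k r) :=
      (hU.mul hk1.continuous).integrable_of_hasCompactSupport hk2.mul_left
    have i2 : Integrable (fun r => P r * k r) :=
      (hPc.mul hk1.continuous).integrable_of_hasCompactSupport hk2.mul_left
    have h3 : ∫ r, G r * k r = (∫ r, U r * k r) - ∫ r, P r * k r := by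
      rw [← integral_sub i1 i2]
      refine integral_congr_ae (Filter.Eventually.of_forall fun r => ?_)
      simp only [hG]; ring
    rw [h3, h2]
    linarith
  -- `∫ (G - c) g = 0` for all `g`
  have key2 : ∀ g : ℝ → ℝ, ContDiff ℝ ∞ g → HasCompactSupport g → tsupport g ⊆ Ioo a b →
      ∫ r, g r • (G r - c) = 0 := by
    intro g hg1 hg2 hg3
    set I : ℝ := ∫ r, g r with hI
    have ig : Integrable g := hg1.continuous.integrable_of_hasCompactSupport hg2
    have iη : Integrable η := hη1.continuous.integrable_of_hasCompactSupport hη2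
    have hk := key (fun r => g r - I * η r) (hg1.sub (contDiff_const.mul hη1))
      (hg2.sub hη2.mul_left) ?_ ?_
    · have iGg : Integrable (fun r => G r * g r) :=
        (hGc.mul hg1.continuous).integrable_of_hasCompactSupport hg2.mul_left
      have iGη : Integrable (fun r => G r * η r) :=
        (hGc.mul hη1.continuous).integrable_of_hasCompactSupport hη2.mul_left
      have e1 : ∫ r, G r * (g r - I * η r) = (∫ r, G r * g r) - I * c := by
        rw [hc, ← integral_const_mul, ← integral_sub iGg (iGη.const_mul I)]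
        refine integral_congr_ae (Filter.Eventually.of_forall fun r => ?_)
        simp only; ring
      have e2 : ∫ r, g r • (G r - c) = (∫ r, G r * g r) - c * I := by
        rw [hI, ← integral_const_mul, ← integral_sub iGg (ig.const_mul c)]
        refine integral_congr_ae (Filter.Eventually.of_forall fun r => ?_)
        simp only [smul_eq_mul]; ring
      rw [e2]
      rw [e1] at hk
      linarith
    · refine (tsupport_sub g (fun r => I * η r)).trans (union_subset hg3 ?_)
      refine (tsupport_mul_subset_right (f := fun _ => I) (g := η)).trans hη3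
    · rw [integral_sub ig (iη.const_mul I), integral_const_mul, hη4]
      simp [hI]
  have hae := isOpen_Ioo.ae_eq_zero_of_integral_contDiff_smul_eq_zero (μ := volume) (U := Ioo a b)
    (f := fun r => G r - c)
    ((hGc.sub continuous_const).locallyIntegrable.locallyIntegrableOn _) key2
  have hEq : EqOn (fun r => G r - c) (fun _ => 0) (Ioo a b) := by
    refine Measure.eqOn_open_of_ae_eq (μ := volume) ?_ isOpen_Ioo (hGc.sub continuous_const).continuousOn
      continuousOn_const
    rw [Filter.EventuallyEq, ae_restrict_iff' measurableSet_Ioo]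
    exact hae
  have hGs : G s - c = 0 := hEq hs
  have hGt : G t - c = 0 := hEq ht
  have hPs : P s = 0 := by simp [hP]
  have : U t - P t = U s - P s := by
    have : G t = G s := by linarith
    simpa [hG] using this
  rw [hPs] at this
  have h4 : U t - U s = P t := by linarith
  exact h4

end Pool.Agent.MP909527.DBR
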