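import Pool.Agent.Work.MP_909527_an.Interface
import Pool.Agent.Work.MP_909527_an_helper74.DBR

/-!
# Block T: time increments from the weak formulation
-/

set_option autoImplicit false

open MeasureTheory Set Filter Topology
open scoped ContDiff InnerProductSpace

namespace Pool.Agent.MP909527

namespace BT

variable {N : ℕ} {M : NormalMetric N} {c : Coef N}

lemma innerSL_gradient (φ : E N → ℝ) (y : E N) : innerSL ℝ (gradient φ y) = fderiv ℝ φ y := by
  have h := toDual_gradient (𝕜 := ℝ) (f := φ) (x := y)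
  rw [← h]
  rfl

lemma A_grad (hc : IsCoefOf c M) (φ : E N → ℝ) (y : E N) :
    c.A y (gradient φ y) = M.dens y • M.grad φ y := by
  rw [hc.2, innerSL_gradient]
  rfl

lemma L_eq (hc : IsCoefOf c M) (φ : E N → ℝ) (x : E N) : c.w x * M.lap φ x = c.L φ x := by
  unfold NormalMetric.lap Coef.L
  rw [← hc.1]
  rw [← mul_assoc, mul_inv_cancel₀ (c.wpos x).ne', one_mul]
  refine Finset.sum_congr rfl fun i _ => ?_
  have : (fun y => (c.A y (gradient φ y)) i) = fun y => M.dens y * (M.grad φ y) i := by
    funext y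
    rw [A_grad hc]
    rfl
  rw [this]

lemma gradient_smooth {φ : E N → ℝ} (hφ : ContDiff ℝ ∞ φ) : ContDiff ℝ ∞ (gradient φ) := by
  have : gradient φ = fun y => (InnerProductSpace.toDual ℝ (E N)).symm (fderiv ℝ φ y) := rfl
  rw [this]
  exact (InnerProductSpace.toDual ℝ (E N)).symm.contDiff.comp (hφ.fderiv_right (m := ∞) (by simp))

lemma Agrad_smooth (c : Coef N) {φ : E N → ℝ} (hφ : ContDiff ℝ ∞ φ) (i : Fin N) :
    ContDiff ℝ ∞ (fun y => (c.A y (gradient φ y)) i) := by
  have h : ContDiff ℝ ∞ (fun y => c.A y (gradient φ y)) := c.smoothA.clm_apply (gradient_smooth hφ)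
  exact (EuclideanSpace.proj (𝕜 := ℝ) i).contDiff.comp h

lemma L_continuous (c : Coef N) {φ : E N → ℝ} (hφ : ContDiff ℝ ∞ φ) : Continuous (c.L φ) := by
  unfold Coef.L
  refine continuous_finsetSum _ fun i _ => ?_
  exact (((Agrad_smooth c hφ i).fderiv_right (m := ∞) (by simp)).clm_apply
    contDiff_const).continuous

lemma L_smul (c : Coef N) {φ : E N → ℝ} (hφ : ContDiff ℝ ∞ φ) (a : ℝ) (x : E N) :
    c.L (fun y => a * φ y) x = a * c.L φ x := by
  unfold Coef.L
  rw [Finset.mul_sum]
  refine Finset.sum_congr rfl fun i _ => ?_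
  have h1 : ∀ y, gradient (fun y => a * φ y) y = a • gradient φ y := by
    intro y
    unfold gradient
    rw [fderiv_const_mul (hφ.differentiable (by simp) y), map_smul]
  have h2 : (fun y => (c.A y (gradient (fun y => a * φ y) y)) i)
      = fun y => a * (c.A y (gradient φ y)) i := by
    funext y
    rw [h1, map_smul]
    rfl
  rw [h2, fderiv_const_mul ((Agrad_smooth c hφ i).differentiable (by simp) x)]
  rfl

lemma L_zero (c : Coef N) {φ : E N → ℝ} {x : E N} (hx : x ∉ tsupport φ) : c.L φ x = 0 := by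
  unfold Coef.L
  refine Finset.sum_eq_zero fun i _ => ?_
  have h : (fun y => (c.A y (gradient φ y)) i) =ᶠ[𝓝 x] fun _ => 0 := by
    filter_upwards [(isClosed_tsupport φ).isOpen_compl.mem_nhds hx] with y hy
    have h1 : φ =ᶠ[𝓝 y] fun _ => (0 : ℝ) := by
      filter_upwards [(isClosed_tsupport φ).isOpen_compl.mem_nhds hy] with z hz
      exact image_eq_zero_of_notMem_tsupport hz
    have h2 : gradient φ y = 0 := by
      unfold gradient
      rw [h1.fderiv_eq]
      simp
    rw [h2]
    simp
  rw [h.fderiv_eq]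
  simp

lemma w_continuous (c : Coef N) : Continuous c.w := c.smoothw.continuous

lemma vol_eq (hc : IsCoefOf c M) : M.vol = volume.withDensity fun x => ENNReal.ofReal (c.w x) := by
  unfold NormalMetric.vol
  congr 1
  funext x
  rw [hc.1]

lemma vol_int (hc : IsCoefOf c M) (F : E N → ℝ) : ∫ x, F x ∂M.vol = ∫ x, c.w x * F x := by
  rw [vol_eq hc, integral_withDensity_eq_integral_toReal_smul]
  · refine integral_congr_ae (Filter.Eventually.of_forall fun x => ?_)
    simp only [smul_eq_mul]
    rw [ENNReal.toReal_ofReal (c.wpos x).le]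
  · exact (w_continuous c).measurable.ennreal_ofReal
  · exact Filter.Eventually.of_forall fun x => ENNReal.ofReal_lt_top

/-- `r ↦ ∫ q(r,x) ψ(x) dx` -/
noncomputable def Iq (q : ℝ → E N → ℝ) (ψ : E N → ℝ) (r : ℝ) : ℝ := ∫ x, q r x * ψ x

lemma Iq_cont {q : ℝ → E N → ℝ} {ψ : E N → ℝ}
    (hq : ContinuousOn (fun z : ℝ × E N => q z.1 z.2) (Ioi 0 ×ˢ univ)) (hψ : Continuous ψ)
    (hs : HasCompactSupport ψ) : ContinuousOn (Iq q ψ) (Ioi 0) := by
  refine continuousOn_integral_of_compact_support (f := fun r x => q r x * ψ x)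
    (k := tsupport ψ) hs ?_ ?_
  · exact hq.mul (hψ.comp continuous_snd).continuousOn
  · intro r x _ hx
    rw [image_eq_zero_of_notMem_tsupport hx, mul_zero]

lemma Iq_fubini {q : ℝ → E N → ℝ} {ψ : E N → ℝ}
    (hq : ContinuousOn (fun z : ℝ × E N => q z.1 z.2) (Ioi 0 ×ˢ univ)) (hψ : Continuous ψ)
    (hs : HasCompactSupport ψ) {s t : ℝ} (hs0 : 0 < s) (hst : s ≤ t) :
    ∫ r in s..t, Iq q ψ r = ∫ x, (∫ r in s..t, q r x) * ψ x := by
  unfold Iq
  rw [intervalIntegral_integral_swap]
  · refine integral_congr_ae (Filter.Eventually.of_forall fun x => ?_)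
    simp only
    rw [intervalIntegral.integral_mul_const]
  · rw [Set.uIoc_of_le hst, ← Measure.restrict_univ (μ := (volume : Measure (E N))),
      Measure.prod_restrict]
    have hcomp : IsCompact (Icc s t ×ˢ tsupport ψ) := isCompact_Icc.prod hs
    have hint : IntegrableOn (Function.uncurry fun r x => q r x * ψ x) (Icc s t ×ˢ tsupport ψ)
        (volume.prod volume) := by
      refine ContinuousOn.integrableOn_compact hcomp ?_
      have h1 : ContinuousOn (fun z : ℝ × E N => q z.1 z.2) (Icc s t ×ˢ tsupport ψ) :=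
        hq.mono (Set.prod_mono (fun r hr => lt_of_lt_of_le hs0 hr.1) (subset_univ _))
      exact h1.mul (hψ.comp continuous_snd).continuousOn
    have h2 : IntegrableOn (Function.uncurry fun r x => q r x * ψ x) (Icc s t ×ˢ univ)
        (volume.prod volume) := by
      refine hint.of_forall_sdiff_eq_zero ?_ ?_
      · exact measurableSet_Icc.prod MeasurableSet.univ
      · rintro ⟨r, x⟩ ⟨h1, h2⟩
        have hx : x ∉ tsupport ψ := fun h' => h2 ⟨h1.1, h'⟩
        simp [Function.uncurry, image_eq_zero_of_notMem_tsupport hx]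
    exact h2.mono_set (Set.prod_mono Ioc_subset_Icc_self subset_rfl)

lemma weak1 (hc : IsCoefOf c M) {m p : ℝ} {u₀ : E N → ℝ} {u : ℝ → E N → ℝ}
    (hu : M.IsGlobalSolution m p u₀ u) {φ : E N → ℝ} (hφ : ContDiff ℝ ∞ φ)
    (hφs : HasCompactSupport φ) {χ : ℝ → ℝ} (hχ : ContDiff ℝ ∞ χ) (hχs : HasCompactSupport χ)
    {T : ℝ} (hT : 0 < T) (hχT : χ T = 0) :
    -(∫ r in Ioo 0 T, Iq u (fun x => c.w x * φ x) r * deriv χ r)
      = (∫ r in Ioo 0 T, Iq (fun r x => u r x ^ m) (c.L φ) r * χ r)
        + (∫ r in Ioo 0 T, Iq (fun r x => u r x ^ p) (fun x => c.w x * φ x) r * χ r)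
        + χ 0 * ∫ x, u₀ x * φ x ∂M.vol := by
  have h := hu.weak T hT (fun t x => χ t * φ x) ?_ ?_ ?_
  · have e1 : ∀ t, ∫ x, u t x * deriv (fun s => χ s * φ x) t ∂M.vol
        = Iq u (fun x => c.w x * φ x) t * deriv χ t := by
      intro t
      rw [vol_int hc, Iq, ← integral_mul_const]
      refine integral_congr_ae (Filter.Eventually.of_forall fun x => ?_)
      simp only [deriv_mul_const_field]
      ring
    have e2 : ∀ t, ∫ x, u t x ^ m * M.lap (fun x => χ t * φ x) x ∂M.vol
        = Iq (fun r x => u r x ^ m) (c.L φ) t * χ t := by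
      intro t
      rw [vol_int hc, Iq, ← integral_mul_const]
      refine integral_congr_ae (Filter.Eventually.of_forall fun x => ?_)
      have h1 := L_eq hc (fun x => χ t * φ x) x
      rw [L_smul c hφ] at h1
      simp only
      calc c.w x * (u t x ^ m * M.lap (fun x => χ t * φ x) x)
          = u t x ^ m * (c.w x * M.lap (fun x => χ t * φ x) x) := by ring
        _ = _ := by rw [h1]; ring
    have e3 : ∀ t, ∫ x, u t x ^ p * (χ t * φ x) ∂M.vol
        = Iq (fun r x => u r x ^ p) (fun x => c.w x * φ x) t * χ t := by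
      intro t
      rw [vol_int hc, Iq, ← integral_mul_const]
      refine integral_congr_ae (Filter.Eventually.of_forall fun x => ?_)
      simp only
      ring
    have e4 : ∫ x, u₀ x * (χ 0 * φ x) ∂M.vol = χ 0 * ∫ x, u₀ x * φ x ∂M.vol := by
      rw [← integral_const_mul]
      refine integral_congr_ae (Filter.Eventually.of_forall fun x => ?_)
      simp only
      ring
    simp only [e1, e2, e3, e4] at h
    exact h
  · exact (hχ.comp contDiff_fst).mul (hφ.comp contDiff_snd)
  · refine HasCompactSupport.of_support_subset_isCompact (hχs.isCompact.prod hφs.isCompact) ?_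
    rintro ⟨r, x⟩ hrx
    have h1 : χ r * φ x ≠ 0 := hrx
    exact ⟨subset_tsupport _ (left_ne_zero_of_mul h1), subset_tsupport _ (right_ne_zero_of_mul h1)⟩
  · intro x
    rw [hχT, zero_mul]

lemma slice_cont {q : ℝ → E N → ℝ}
    (hq : ContinuousOn (fun z : ℝ × E N => q z.1 z.2) (Ioi 0 ×ˢ univ)) {t : ℝ} (ht : 0 < t) :
    Continuous (q t) := by
  have h : Continuous (fun x : E N => ((t, x) : ℝ × E N)) := by fun_prop
  exact hq.comp_continuous h (fun x => ⟨ht, mem_univ _⟩)

lemma veryWeak (hc : IsCoefOf c M) {m p : ℝ} (hm : 0 ≤ m) (hp : 0 ≤ p) {u₀ : E N → ℝ}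
    {u : ℝ → E N → ℝ} (hu : M.IsGlobalSolution m p u₀ u) {t₀ t₁ : ℝ} (ht₀ : 0 < t₀) :
    VeryWeak c m p u t₀ t₁ := by
  intro s t hs hst _ φ hφ hφs
  have hs0 : 0 < s := ht₀.trans_le hs
  have hut := hu.cont
  have hum : ContinuousOn (fun z : ℝ × E N => u z.1 z.2 ^ m) (Ioi 0 ×ˢ univ) :=
    hut.rpow_const fun _ _ => Or.inr hm
  have hup : ContinuousOn (fun z : ℝ × E N => u z.1 z.2 ^ p) (Ioi 0 ×ˢ univ) :=
    hut.rpow_const fun _ _ => Or.inr hp
  have hwφ : Continuous (fun x => c.w x * φ x) := (w_continuous c).mul hφ.continuous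
  have hwφs : HasCompactSupport (fun x => c.w x * φ x) := hφs.mul_left
  have hLφ := L_continuous c hφ
  have hLφs : HasCompactSupport (c.L φ) := by
    refine HasCompactSupport.of_support_subset_isCompact hφs.isCompact ?_
    intro x hx
    by_contra h'
    exact hx (L_zero c h')
  set U0 := Iq u (fun x => c.w x * φ x) with hU0
  set Vm := Iq (fun r x => u r x ^ m) (c.L φ) with hVm
  set Vp := Iq (fun r x => u r x ^ p) (fun x => c.w x * φ x) with hVp
  have cU0 : ContinuousOn U0 (Ioi 0) := Iq_cont hut hwφ hwφs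
  have cVm : ContinuousOn Vm (Ioi 0) := Iq_cont hum hLφ hLφs
  have cVp : ContinuousOn Vp (Ioi 0) := Iq_cont hup hwφ hwφs
  set a : ℝ := s / 2 with ha
  set b : ℝ := t + 1 with hb
  have ha0 : 0 < a := by positivity
  have hmax : Continuous (fun r : ℝ => max r a) := continuous_id.max continuous_const
  have hmax0 : ∀ r : ℝ, max r a ∈ Ioi (0 : ℝ) := fun r => ha0.trans_le (le_max_right _ _)
  have key := DBR.dBR (U := fun r => U0 (max r a)) (V := fun r => Vm (max r a) + Vp (max r a))
    (a := a) (b := b)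
    (cU0.comp_continuous hmax hmax0)
    ((cVm.comp_continuous hmax hmax0).add (cVp.comp_continuous hmax hmax0))
    (by simp only [ha, hb]; linarith) ?_
  · have h1 := key s ⟨by simp only [ha]; linarith, by simp only [hb]; linarith⟩ t
      ⟨by simp only [ha]; linarith, by simp only [hb]; linarith⟩
    have ems : max s a = s := max_eq_left (by simp only [ha]; linarith)
    have emt : max t a = t := max_eq_left (by simp only [ha]; linarith)
    simp only [ems, emt] at h1
    have h2 : ∫ r in s..t, (Vm (max r a) + Vp (max r a)) = (∫ r in s..t, Vm r) + ∫ r in s..t, Vp r := by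
      rw [← intervalIntegral.integral_add]
      · refine intervalIntegral.integral_congr fun r hr => ?_
        rw [Set.uIcc_of_le hst.le] at hr
        have : max r a = r := max_eq_left (by simp only [ha]; linarith [hr.1])
        simp only [this]
      · refine ContinuousOn.intervalIntegrable (cVm.mono ?_)
        rw [Set.uIcc_of_le hst.le]
        exact fun r hr => hs0.trans_le hr.1
      · refine ContinuousOn.intervalIntegrable (cVp.mono ?_)
        rw [Set.uIcc_of_le hst.le]
        exact fun r hr => hs0.trans_le hr.1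
    rw [h2, hVm, hVp, Iq_fubini hum hLφ hLφs hs0 hst.le, Iq_fubini hup hwφ hwφs hs0 hst.le] at h1
    have h3 : U0 t - U0 s = ∫ x, c.w x * (u t x - u s x) * φ x := by
      simp only [hU0, Iq]
      rw [← integral_sub]
      · refine integral_congr_ae (Filter.Eventually.of_forall fun x => ?_)
        simp only
        ring
      · exact ((slice_cont hut (hs0.trans hst)).mul hwφ).integrable_of_hasCompactSupport
          hwφs.mul_left
      · exact ((slice_cont hut hs0).mul hwφ).integrable_of_hasCompactSupport hwφs.mul_left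
    rw [← h3, h1]
    congr 1
    refine integral_congr_ae (Filter.Eventually.of_forall fun x => ?_)
    simp only
    ring
  · intro χ hχ hχ0
    have hχs : HasCompactSupport χ := by
      refine HasCompactSupport.of_support_subset_isCompact (isCompact_Icc (a := a) (b := b)) ?_
      intro r hr
      by_contra h'
      exact hr (hχ0 r fun h'' => h' (Ioo_subset_Icc_self h''))
    set T : ℝ := b + 1 with hTdef
    have hT : 0 < T := by simp only [hTdef, hb]; linarith
    have hχT : χ T = 0 := hχ0 T fun h' => absurd h'.2 (by simp [hTdef])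
    have hχ00 : χ 0 = 0 := hχ0 0 fun h' => absurd h'.1 (not_lt.2 ha0.le)
    have hdχ0 : ∀ r, r ∉ Icc a b → deriv χ r = 0 := by
      intro r hr
      have : χ =ᶠ[𝓝 r] fun _ => (0 : ℝ) := by
        filter_upwards [isClosed_Icc.isOpen_compl.mem_nhds hr] with q hq
        exact hχ0 q fun h' => hq (Ioo_subset_Icc_self h')
      rw [this.deriv_eq]
      simp
    have hIcc : ∀ r, r ∉ Ioo 0 T → r ∉ Icc a b := by
      intro r hr h'
      exact hr ⟨ha0.trans_le h'.1, h'.2.trans_lt (by simp [hTdef])⟩
    have hw := weak1 hc hu hφ hφs hχ hχs hT hχT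
    rw [hχ00, zero_mul, add_zero] at hw
    have f1 : ∫ r in Ioo 0 T, U0 r * deriv χ r = ∫ r, U0 (max r a) * deriv χ r := by
      rw [← setIntegral_eq_integral_of_forall_compl_eq_zero (s := Ioo 0 T)
        (f := fun r => U0 (max r a) * deriv χ r)]
      · refine setIntegral_congr_fun measurableSet_Ioo fun r _ => ?_
        by_cases hra : a ≤ r
        · simp only [max_eq_left hra]
        · simp only [hdχ0 r fun h' => hra h'.1, mul_zero]
      · intro r hr
        rw [hdχ0 r (hIcc r hr), mul_zero]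
    have f2 : ∀ W : ℝ → ℝ, ∫ r in Ioo 0 T, W r * χ r = ∫ r, W (max r a) * χ r := by
      intro W
      rw [← setIntegral_eq_integral_of_forall_compl_eq_zero (s := Ioo 0 T)
        (f := fun r => W (max r a) * χ r)]
      · refine setIntegral_congr_fun measurableSet_Ioo fun r _ => ?_
        by_cases hra : a ≤ r
        · simp only [max_eq_left hra]
        · simp only [hχ0 r fun h' => hra h'.1.le, mul_zero]
      · intro r hr
        rw [hχ0 r (fun h' => hIcc r hr (Ioo_subset_Icc_self h')), mul_zero]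
    have i1 : Integrable (fun r => Vm (max r a) * χ r) :=
      ((cVm.comp_continuous hmax hmax0).mul hχ.continuous).integrable_of_hasCompactSupport
        hχs.mul_left
    have i2 : Integrable (fun r => Vp (max r a) * χ r) :=
      ((cVp.comp_continuous hmax hmax0).mul hχ.continuous).integrable_of_hasCompactSupport
        hχs.mul_left
    rw [f1, f2, f2, ← integral_add i1 i2] at hw
    rw [hw]
    refine integral_congr_ae (Filter.Eventually.of_forall fun r => ?_)
    simp only
    ring

lemma nontrivial (hc : IsCoefOf c M) {m p : ℝ} (hm : 1 < m) (hp : 1 < p) {u₀ : E N → ℝ}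
    {u : ℝ → E N → ℝ} (hu₀ : MemLp u₀ (ENNReal.ofReal m) M.vol)
    (hu : M.IsGlobalSolution m p u₀ u) (h0 : ∀ t > 0, ∀ x, u t x = 0) : u₀ =ᵐ[M.vol] 0 := by
  have hlf : IsLocallyFiniteMeasure M.vol := by
    rw [vol_eq hc]
    exact IsLocallyFiniteMeasure.withDensity_ofReal (w_continuous c)
  have hli : LocallyIntegrable u₀ M.vol := by
    refine hu₀.locallyIntegrable ?_
    rw [ENNReal.one_le_ofReal]
    exact hm.le
  refine ae_eq_zero_of_integral_contDiff_smul_eq_zero hli fun φ hφ hφs => ?_
  -- a bump in time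
  set b : ContDiffBump (0 : ℝ) := ⟨1, 2, by norm_num, by norm_num⟩
  have hbs : HasCompactSupport (b : ℝ → ℝ) := b.hasCompactSupport
  have hb0 : (b : ℝ → ℝ) 0 = 1 := b.one_of_mem_closedBall (by simp [b.rIn_pos.le])
  have hb3 : (b : ℝ → ℝ) 3 = 0 := by
    refine b.zero_of_le_dist ?_
    have : b.rOut = 2 := rfl
    rw [this, Real.dist_eq]
    norm_num
  have hw := weak1 hc hu hφ hφs b.contDiff hbs (T := 3) (by norm_num) hb3
  have z1 : ∀ r ∈ Ioo (0 : ℝ) 3, Iq u (fun x => c.w x * φ x) r = 0 := by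
    intro r hr
    simp [Iq, h0 r hr.1]
  have z2 : ∀ r ∈ Ioo (0 : ℝ) 3, Iq (fun r x => u r x ^ m) (c.L φ) r = 0 := by
    intro r hr
    simp [Iq, h0 r hr.1, Real.zero_rpow (by linarith : m ≠ 0)]
  have z3 : ∀ r ∈ Ioo (0 : ℝ) 3, Iq (fun r x => u r x ^ p) (fun x => c.w x * φ x) r = 0 := by
    intro r hr
    simp [Iq, h0 r hr.1, Real.zero_rpow (by linarith : p ≠ 0)]
  have y1 : ∫ r in Ioo (0 : ℝ) 3, Iq u (fun x => c.w x * φ x) r * deriv b r = 0 :=
    setIntegral_eq_zero_of_forall_eq_zero fun r hr => by rw [z1 r hr, zero_mul]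
  have y2 : ∫ r in Ioo (0 : ℝ) 3, Iq (fun r x => u r x ^ m) (c.L φ) r * b r = 0 :=
    setIntegral_eq_zero_of_forall_eq_zero fun r hr => by rw [z2 r hr, zero_mul]
  have y3 : ∫ r in Ioo (0 : ℝ) 3, Iq (fun r x => u r x ^ p) (fun x => c.w x * φ x) r * b r = 0 :=
    setIntegral_eq_zero_of_forall_eq_zero fun r hr => by rw [z3 r hr, zero_mul]
  rw [y1, y2, y3, hb0] at hw
  have hw' : ∫ x, u₀ x * φ x ∂M.vol = 0 := by linarith
  rw [← hw']
  refine integral_congr_ae (Filter.Eventually.of_forall fun x => ?_)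
  simp only [smul_eq_mul]
  ring

end BT

theorem stmt_T : Stmt_T := by
  intro N M c hc m p hp hpm u₀ u hu₀ hu
  refine ⟨fun t₀ t₁ ht₀ _ => BT.veryWeak hc (by linarith) (by linarith) hu ht₀, ?_⟩
  intro hne
  by_contra hcon
  push Not at hcon
  refine hne (BT.nontrivial hc (by linarith) hp hu₀ hu fun t ht x => ?_)
  exact le_antisymm (hcon t ht x) (hu.nonneg t ht x)

end Pool.Agent.MP909527
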